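import Pool.Agent.MP_997fa2_co.Final

/-!
# Proper conflict-free (degree+2)-choosability of K4-minor-free graphs

Every finite connected graph without a `K4` minor, other than the cycle on five vertices, is
proper conflict-free (degree+2)-choosable.

Outline of the proof. Vertices of degree two are suppressed, which leads to multigraphs whose
edges (threads) carry lists of suppressed vertices. In a `K4`-minor-free multigraph without
loops in which all degrees are at least three there is a vertex with at most two neighbours
(`PCF.claimD`), and such a vertex can be removed together with its threads and coloured last
(`PCF.star`); one configuration needs that a colour is deleted beforehand from the list of a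
neighbour. The five-cycle is excluded by keeping track of the weight of cycle components.
-/

universe u v

namespace Pool.Agent.Results.MP_997fa2_co.K4MinorFree

open PCF

/-- Every finite connected `K4`-minor-free graph other than `C5` is proper conflict-free
(degree+2)-choosable. -/
theorem result {V : Type u} {C : Type v} [Fintype V] (G : SimpleGraph V) [DecidableRel G.Adj]
    (hconn : G.Connected) (hminor : ¬ HasK4Minor G)
    (hfive : IsEmpty (G ≃g SimpleGraph.cycleGraph 5))
    (L : V → Finset C) (hL : ∀ v, (L v).card = G.degree v + 2) :
    ∃ φ : V → C, (∀ v, φ v ∈ L v) ∧ IsPCF G φ := by
  classical
  exact main_graph G hconn hminor hfive L hL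

end Pool.Agent.Results.MP_997fa2_co.K4MinorFree
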