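import Pool.Agent.O1P.Ms

/-!
# Proper conflict-free (degree+2)-choosability of outer-1-planar graphs

Every finite connected outer-1-planar graph other than the cycle on five vertices is proper
conflict-free (degree+2)-choosable.

`O1P.Outer1Planar G`: the vertices of `G` can be placed on a circle (in the order given by an
injective `f : V → ℕ`) such that, if the edges are drawn as chords, every edge crosses at most
one other edge. `PCF.IsPCF G φ`: the colouring `φ` is proper conflict-free.

Outline of the proof. Induction for multigraphs of links between the vertices on the circle:
edges, threads (paths with one to three suppressed vertices with their lists), pairs and quads
(two suppressed vertices joined to both ends). Between consecutive vertices there are at most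
three links, of one of seven shapes, other vertices are joined by single edges. A minimal closed
arc of the circle gives a vertex with links to its two neighbours only, or four consecutive
vertices `a, c, d, b` with the crossing edges `a d` and `c b`. In the first case the vertex is
deleted and coloured last (`starB`), or it becomes part of a thread. In the second case `c` and
`d` are deleted and coloured last (`r6`), or `c` is deleted and `d` is kept (`ee`), or both are
collapsed into a pair or a quad. The five-cycle is excluded by keeping track of weights.
-/

universe u v

namespace Pool.Agent.Results.MP_997fa2_co.OuterOnePlanar

open PCF O1P

/-- Every finite connected outer-1-planar graph other than `C5` is proper conflict-free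
(degree+2)-choosable. -/
theorem result {V : Type u} {C : Type v} [Fintype V] (G : SimpleGraph V) [DecidableRel G.Adj]
    (hconn : G.Connected) (houter : Outer1Planar G)
    (hfive : IsEmpty (G ≃g SimpleGraph.cycleGraph 5))
    (L : V → Finset C) (hL : ∀ v, (L v).card = G.degree v + 2) :
    ∃ φ : V → C, (∀ v, φ v ∈ L v) ∧ IsPCF G φ := by
  classical
  exact main_o1p G hconn houter hfive L hL

end Pool.Agent.Results.MP_997fa2_co.OuterOnePlanar
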